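import Pool.Agent.Helper37Ham.NB6

set_option autoImplicit false
open Classical

namespace Pool.Agent.Results.MP_2173d5_co.NearBipartite

open Pool.Agent.Helper37Ham

/-- Let `r` be even and let `H` be a spanning `r`-regular subgraph of a graph `G` on `n`
vertices. Suppose that `S` is a set of vertices with `24 (n - 2 |S|) ≤ r + 6` which is independent
in `H`, and that every vertex of `S` is adjacent in `G` to all, or all but one, of the vertices
outside `S`. Then `G` has `r / 2` pairwise edge-disjoint Hamilton cycles. -/
theorem result :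
    ∀ n : ℕ, 3 ≤ n → ∀ G H : SimpleGraph (Fin n), H ≤ G →
      ∀ r : ℕ, Even r → H.IsRegularOfDegree r →
        ∀ S : Finset (Fin n), (∀ v ∈ S, ∀ w ∈ S, ¬ H.Adj v w) →
          (∀ w ∈ S, (Finset.univ.filter fun v => v ∉ S ∧ ¬ G.Adj w v).card ≤ 1) →
          24 * n ≤ 48 * S.card + r + 6 →
          ∃ p : Fin (r / 2) → Σ v : Fin n, G.Walk v v,
            (∀ i, (p i).2.IsHamiltonianCycle) ∧
            ∀ i j, i ≠ j → ∀ e ∈ (p i).2.edges, e ∉ (p j).2.edges := by
  intro n hn G H hHG r hr hreg S hind hmiss hsize
  obtain ⟨k, hk⟩ := hr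
  have hk2 : r / 2 = k := by omega
  rw [hk2]
  rcases Nat.eq_zero_or_pos k with h0 | h0
  · subst h0
    exact ⟨fun i => i.elim0, fun i => i.elim0, fun i => i.elim0⟩
  · have hdg : ∀ v, dg H v = 2 * k := fun v => by
      rw [← dg_eq_degree, hreg.degree_eq]
      omega
    have hlt : r < n := by
      have h1 := H.degree_lt_card_verts ⟨0, by omega⟩
      rw [hreg.degree_eq, Fintype.card_fin] at h1
      exact h1
    have hS : S.Nonempty := by
      rw [Finset.nonempty_iff_ne_empty]
      rintro rfl
      rw [Finset.card_empty] at hsize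
      omega
    have hcard : S.card + Sᶜ.card = n := by
      rw [Finset.card_add_card_compl, Fintype.card_fin]
    obtain ⟨C, hC1, hC2, hC3, hC4⟩ := near_bip G H hHG S hS
      (fun w hw => by
        have h1 := hmiss w hw
        rw [Set.ncard_eq_toFinset_card']
        refine le_trans (le_of_eq ?_) h1
        congr 1
        ext v
        simp)
      k hdg hind h0 (by omega)
    exact cycles_of G C hC1 hC2 hC3 hC4

end Pool.Agent.Results.MP_2173d5_co.NearBipartite
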