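import Pool.Agent.Helper37Ham.RF16

set_option autoImplicit false
open Classical

namespace Pool.Agent.Results.MP_2173d5_co.RobustFactors

open Pool.Agent.Helper37Ham

/-- The `ν`-robust neighbourhood of `X` in a graph `H` on `n` vertices: the set of vertices that
have at least `ν n` neighbours in `X`. -/
noncomputable def robustNbr {n : ℕ} (H : SimpleGraph (Fin n)) (ν : ℝ) (X : Finset (Fin n)) :
    Finset (Fin n) :=
  Finset.univ.filter fun v => ν * n ≤ ((H.neighborFinset v ∩ X).card : ℝ)

/-- A graph `H` on `n` vertices is a robust `(ν, τ)`-expander if the `ν`-robust neighbourhood of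
every set `X` of vertices with `τ n ≤ |X| ≤ (1 - τ) n` has at least `|X| + ν n` members. -/
def IsRobustExpander {n : ℕ} (H : SimpleGraph (Fin n)) (ν τ : ℝ) : Prop :=
  ∀ X : Finset (Fin n), τ * n ≤ (X.card : ℝ) → (X.card : ℝ) ≤ (1 - τ) * n →
    (X.card : ℝ) + ν * n ≤ ((robustNbr H ν X).card : ℝ)

/-- For all positive `γ`, `α`, `τ` there are `ν > 0` and `n₀` such that the following holds for
every graph `G` on `n ≥ n₀` vertices with minimum degree at least `n / 2` in which every set `A` of
`⌊n / 2⌋` vertices sends at least `γ n ^ 2` edges to its complement and contains at least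
`γ n ^ 2` ordered pairs of adjacent vertices, and for every `r ≥ α n`: if `G` has a spanning
`r`-regular subgraph, then it has one that is a robust `(ν, τ)`-expander; indeed at most a
proportion `2 ^ (-n)` of the spanning `r`-regular subgraphs of `G` fail to be robust
`(ν, τ)`-expanders. -/
theorem result :
    ∀ γ α τ : ℝ, 0 < γ → 0 < α → 0 < τ → ∃ ν : ℝ, 0 < ν ∧ ν ≤ τ ∧ ∃ n₀ : ℕ,
      ∀ n : ℕ, n₀ ≤ n → ∀ G : SimpleGraph (Fin n),
        (∀ v, n ≤ 2 * G.degree v) →
        (∀ A : Finset (Fin n), A.card = n / 2 →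
          γ * (n : ℝ) ^ 2 ≤ ((G.interedges A Aᶜ).card : ℝ) ∧
          γ * (n : ℝ) ^ 2 ≤ ((G.interedges A A).card : ℝ)) →
        ∀ r : ℕ, α * n ≤ r →
          ((∃ H : SimpleGraph (Fin n), H ≤ G ∧ H.IsRegularOfDegree r) →
            ∃ H : SimpleGraph (Fin n), H ≤ G ∧ H.IsRegularOfDegree r ∧
              IsRobustExpander H ν τ) ∧
          2 ^ n * {H : SimpleGraph (Fin n) | H ≤ G ∧ H.IsRegularOfDegree r ∧
              ¬ IsRobustExpander H ν τ}.ncard ≤
            {H : SimpleGraph (Fin n) | H ≤ G ∧ H.IsRegularOfDegree r}.ncard := by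
  intro γ α τ hγ hα hτ
  obtain ⟨ν, hν, hντ, n₀, hmain⟩ := robust_most γ α τ hγ hα hτ
  refine ⟨ν, hν, hντ, max n₀ 1, ?_⟩
  intro n hn G hdir hext r hr
  have hn1 : 0 < n := lt_of_lt_of_le Nat.zero_lt_one ((le_max_right _ _).trans hn)
  have : Nonempty (Fin n) := ⟨⟨0, hn1⟩⟩
  have hn0 : (0 : ℝ) < (n : ℝ) := by exact_mod_cast hn1
  have hinter : ∀ A B : Finset (Fin n), (G.interedges A B).card = ee G A B := by
    intro A B
    unfold SimpleGraph.interedges Rel.interedges ee ad
    rw [Finset.card_filter, Finset.sum_product]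
  have hreg : ∀ H : SimpleGraph (Fin n), H.IsRegularOfDegree r ↔ ∀ v, dg H v = r := by
    intro H
    constructor
    · intro h v
      rw [← dg_eq_degree]
      exact h v
    · intro h v
      rw [dg_eq_degree]
      exact h v
  have hrob : ∀ H : SimpleGraph (Fin n), IsRobustExpander H ν τ ↔
      ∀ X : Finset (Fin n), τ ≤ mu X → mu X ≤ 1 - τ → mu X + ν ≤ mu (rn H ν X) := by
    intro H
    have e1 : ∀ X : Finset (Fin n), robustNbr H ν X = rn H ν X := by
      intro X
      unfold robustNbr rn
      apply Finset.filter_congr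
      intro v _
      have e2 : (H.neighborFinset v ∩ X).card = ∑ x ∈ X, ad H v x := by
        unfold ad
        rw [← Finset.card_filter]
        congr 1
        ext x
        simp [and_comm]
      rw [e2, Fintype.card_fin]
    have e3 : ∀ X : Finset (Fin n), mu X * n = X.card := by
      intro X
      unfold mu
      rw [Fintype.card_fin]
      field_simp
    constructor
    · intro h X h1 h2
      have h3 := h X (by rw [← e3]; exact mul_le_mul_of_nonneg_right h1 hn0.le)
        (by rw [← e3]; exact mul_le_mul_of_nonneg_right h2 hn0.le)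
      rw [e1, ← e3, ← e3, ← add_mul] at h3
      exact le_of_mul_le_mul_right h3 hn0
    · intro h X h1 h2
      rw [← e3] at h1 h2
      have h3 := h X (le_of_mul_le_mul_right h1 hn0) (le_of_mul_le_mul_right h2 hn0)
      rw [e1, ← e3, ← e3, ← add_mul]
      exact mul_le_mul_of_nonneg_right h3 hn0.le
  have hm := hmain (Fin n) (by rw [Fintype.card_fin]; exact (le_max_left _ _).trans hn) G
    (fun v => by rw [← dg_eq_degree, Fintype.card_fin]; exact hdir v)
    (fun A hA => by
      rw [Fintype.card_fin] at hA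
      obtain ⟨h1, h2⟩ := hext A hA
      rw [hinter] at h1 h2
      unfold den
      rw [Fintype.card_fin]
      constructor
      · rw [le_div_iff₀ (by positivity)]
        exact h1
      · rw [le_div_iff₀ (by positivity)]
        exact h2)
    r (by rw [Fintype.card_fin]; exact hr)
  rw [Fintype.card_fin] at hm
  have hall : {H : SimpleGraph (Fin n) | H ≤ G ∧ H.IsRegularOfDegree r} =
      ((facs G r : Finset (SimpleGraph (Fin n))) : Set (SimpleGraph (Fin n))) := by
    ext H
    rw [Set.mem_ofPred_eq, Finset.mem_coe, mem_facs, hreg]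
  have hbad : {H : SimpleGraph (Fin n) | H ≤ G ∧ H.IsRegularOfDegree r ∧
      ¬ IsRobustExpander H ν τ} =
      (((facs G r).filter fun H => ¬ ∀ X : Finset (Fin n), τ ≤ mu X → mu X ≤ 1 - τ →
        mu X + ν ≤ mu (rn H ν X) : Finset (SimpleGraph (Fin n))) :
          Set (SimpleGraph (Fin n))) := by
    ext H
    rw [Set.mem_ofPred_eq, Finset.mem_coe, Finset.mem_filter, mem_facs, hreg, hrob, and_assoc]
  refine ⟨?_, ?_⟩
  · rintro ⟨H0, h1, h2⟩
    by_contra hcon
    push Not at hcon
    have h3 : (facs G r).filter (fun H => ¬ ∀ X : Finset (Fin n), τ ≤ mu X → mu X ≤ 1 - τ →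
        mu X + ν ≤ mu (rn H ν X)) = facs G r := by
      apply Finset.filter_true_of_mem
      intro H hH
      rw [mem_facs] at hH
      rw [← hrob]
      exact hcon H hH.1 ((hreg H).2 hH.2)
    rw [h3] at hm
    have h4 : 0 < (facs G r).card :=
      Finset.card_pos.2 ⟨H0, (mem_facs G r H0).2 ⟨h1, (hreg H0).1 h2⟩⟩
    have h5 : 2 ≤ 2 ^ n := by
      calc 2 = 2 ^ 1 := rfl
        _ ≤ 2 ^ n := Nat.pow_le_pow_right (by norm_num) hn1
    have h6 := Nat.mul_le_mul_left (facs G r).card h5
    omega
  · rw [hall, hbad, Set.ncard_coe_finset, Set.ncard_coe_finset, mul_comm]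
    exact hm

end Pool.Agent.Results.MP_2173d5_co.RobustFactors
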