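import Pool.Agent.Helper37Ham.Mod7
import Pool.Agent.Helper37Ham.Cyc

set_option autoImplicit false
open Classical

namespace Pool.Agent.Results.MP_2173d5_co.TwinClasses

open Pool.Agent.Helper37Ham

/-- The conclusion of the conjecture holds, for every even `r`, for every Dirac graph whose vertex
set splits into `p` classes such that adjacency of two distinct vertices depends only on their
classes (each class is independent or a clique, and any two classes are completely joined or not
joined at all), when every class has at least `M` members, `9 p^4 ≤ M` and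
`8 p^4 (r + 2) ≤ M^2`. -/
theorem result :
    ∀ n : ℕ, 3 ≤ n → ∀ G : SimpleGraph (Fin n),
      (∀ v, n ≤ 2 * G.degree v) →
      ∀ r : ℕ, Even r →
        (∃ H : SimpleGraph (Fin n), H ≤ G ∧ H.IsRegularOfDegree r) →
        ∀ (p : ℕ) (f : Fin n → Fin p),
          (∀ x y x' y', x ≠ y → x' ≠ y' → f x = f x' → f y = f y' →
            G.Adj x y → G.Adj x' y') →
          ∀ M : ℕ, (∀ i, M ≤ (Finset.univ.filter fun v => f v = i).card) →
            9 * p ^ 4 ≤ M → 8 * p ^ 4 * (r + 2) ≤ M ^ 2 →
            ∃ q : Fin (r / 2) → Σ v : Fin n, G.Walk v v,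
              (∀ i, (q i).2.IsHamiltonianCycle) ∧
              ∀ i j, i ≠ j → ∀ e ∈ (q i).2.edges, e ∉ (q j).2.edges := by
  intro n hn G hdir r hr hH p f hhom M hM hc1 hc2
  obtain ⟨H, hHG, hreg⟩ := hH
  obtain ⟨k, hk⟩ := hr
  have hk2 : r / 2 = k := by omega
  rw [hk2]
  rcases Nat.eq_zero_or_pos k with h0 | h0
  · subst h0
    exact ⟨fun i => i.elim0, fun i => i.elim0, fun i => i.elim0⟩
  · have hne : Nonempty (Fin n) := ⟨⟨0, by omega⟩⟩
    obtain ⟨C, hC1, hC2, hC3, hC4⟩ := mod_core G H hHG k M h0
      (fun v => by rw [← dg_eq_degree, hreg.degree_eq]; omega)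
      (fun v => by rw [← dg_eq_degree, Fintype.card_fin]; exact hdir v) f hhom
      (fun i => by
        have h1 := hM i
        unfold sz
        convert h1)
      (by rw [Fintype.card_fin]; exact hc1)
      (by
        rw [Fintype.card_fin]
        refine le_trans (le_of_eq ?_) hc2
        rw [hk]
        ring)
    exact cycles_of G C hC1 hC2 hC3 hC4

end Pool.Agent.Results.MP_2173d5_co.TwinClasses
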