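import Pool.Agent.Helper37Ham.Cyc
import Pool.Agent.Helper37Ham.Uni

set_option autoImplicit false
open Classical

namespace Pool.Agent.Results.MP_2173d5_co.UniversalVertices

open Pool.Agent.Helper37Ham

/-- Let `G` be a graph on `n ≥ 3` vertices in which at least half of the vertices are adjacent to
all other vertices. If `r` is even and `G` has an `r`-factor, then `G` has `r / 2` pairwise
edge-disjoint Hamilton cycles. -/
theorem result :
    ∀ n : ℕ, 3 ≤ n → ∀ G : SimpleGraph (Fin n),
      n ≤ 2 * (Finset.univ.filter fun u => ∀ v, v ≠ u → G.Adj u v).card →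
      ∀ r : ℕ, Even r → (∃ H : SimpleGraph (Fin n), H ≤ G ∧ H.IsRegularOfDegree r) →
          ∃ p : Fin (r / 2) → Σ v : Fin n, G.Walk v v,
            (∀ i, (p i).2.IsHamiltonianCycle) ∧
            ∀ i j, i ≠ j → ∀ e ∈ (p i).2.edges, e ∉ (p j).2.edges := by
  intro n hn G hU r hr ⟨H, hHG, hreg⟩
  obtain ⟨k, hk⟩ := hr
  have hk2 : r / 2 = k := by omega
  rw [hk2]
  have hdg : ∀ v, dg H v = 2 * k := fun v => by
    rw [← dg_eq_degree, hreg.degree_eq]
    omega
  have hne : (Finset.univ.filter fun u => ∀ v, v ≠ u → G.Adj u v).Nonempty := by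
    rw [← Finset.card_pos]
    omega
  obtain ⟨C, hC1, hC2, hC3, hC4⟩ := uni_core G H hHG
    (Finset.univ.filter fun u => ∀ v, v ≠ u → G.Adj u v)
    (by rw [Fintype.card_fin]; exact hU)
    (fun u hu => (Finset.mem_filter.mp hu).2) k hdg hne
  exact cycles_of G C hC1 hC2 hC3 hC4

end Pool.Agent.Results.MP_2173d5_co.UniversalVertices
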